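import Pool.Agent.Run7.h522.UT.Ari

/-!
# Primes with a bounded weight modulo all but boundedly many primes `q ≤ N^{1/2 - δ}`

The diagonal Moebius-twisted Elliott-Halberstam conjecture asks for a power-of-log saving, on average over
the moduli `q ≤ N^θ`, in the distribution of `∑_{n < N} Λ(n) g(N - n)` over the residue class
`n ≡ N (mod q)`, where `g` is `μ` or `μ log`.

Here `N` is a single arbitrary integer, `g` is any real function with `|g(m)| ≤ G` for `1 ≤ m < N` (so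
`G = 1` for `μ`, `G = log N` for `μ log`), `q` is a prime number at most `N^{1/2 - δ}`, and the
discrepancy `E` is the sum of the absolute differences over all the residue classes prime to `q`.
-/

set_option autoImplicit false

namespace Pool.Agent.Results.MP_e9eb55_nt.AllButBoundedModuli

open Finset ArithmeticFunction

/-- `∑_{1 ≤ n < N, n ≡ a (mod q)} Λ(n) g(N - n)`, for `0 ≤ a < q`. -/
noncomputable def classSum (g : ℕ → ℝ) (N q a : ℕ) : ℝ :=
  ∑ n ∈ (Ico 1 N).filter (fun n => n % q = a), Λ n * g (N - n)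

/-- `∑_{1 ≤ n < N, q ∤ n} Λ(n) g(N - n)`. -/
noncomputable def coprimeSum (g : ℕ → ℝ) (N q : ℕ) : ℝ :=
  ∑ n ∈ (Ico 1 N).filter (fun n => ¬ q ∣ n), Λ n * g (N - n)

/-- The discrepancy over all classes modulo a prime `q`: the sum over `0 < a < q` of
`|∑_{n ≡ a (q)} Λ(n) g(N - n) - (q - 1)⁻¹ ∑_{q ∤ n} Λ(n) g(N - n)|`. -/
noncomputable def E (g : ℕ → ℝ) (N q : ℕ) : ℝ :=
  ∑ a ∈ Ico 1 q, |classSum g N q a - coprimeSum g N q / (q - 1)|

lemma sum_units_val {p : ℕ} [NeZero p] (hp : p.Prime) (G : ℕ → ℝ) :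
    ∑ u : (ZMod p)ˣ, G (u : ZMod p).val = ∑ a ∈ Finset.Ico 1 p, G a := by
  classical
  have : Fact p.Prime := ⟨hp⟩
  refine Finset.sum_bij (fun u _ => (u : ZMod p).val) ?_ ?_ ?_ ?_
  · intro u _
    rw [Finset.mem_Ico]
    refine ⟨?_, ZMod.val_lt _⟩
    rw [Nat.one_le_iff_ne_zero, Ne, ZMod.val_eq_zero]
    exact u.ne_zero
  · intro a _ b _ h
    exact Units.ext (ZMod.val_injective p h)
  · intro a ha
    rw [Finset.mem_Ico] at ha
    have hc : a.Coprime p := by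
      refine ((Nat.Prime.coprime_iff_not_dvd hp).2 fun hd => ?_).symm
      have := Nat.le_of_dvd ha.1 hd
      omega
    refine ⟨ZMod.unitOfCoprime a hc, Finset.mem_univ _, ?_⟩
    rw [ZMod.coe_unitOfCoprime, ZMod.val_natCast_of_lt ha.2]
  · intro u _
    rfl

lemma conv_E {p : ℕ} [NeZero p] (hp : p.Prime) (g : ℕ → ℝ) (N : ℕ) :
    E g N p = Run7.h522.UT.dd
      (Run7.h522.UT.Tn (Ico 1 N) (fun n => ((Λ n * g (N - n) : ℝ) : ℂ)) p) := by
  classical
  have : Fact p.Prime := ⟨hp⟩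
  have h1 : ∀ u : (ZMod p)ˣ,
      Run7.h522.UT.Tn (Ico 1 N) (fun n => ((Λ n * g (N - n) : ℝ) : ℂ)) p u =
      ((classSum g N p (u : ZMod p).val : ℝ) : ℂ) := by
    intro u
    unfold Run7.h522.UT.Tn classSum
    rw [Complex.ofReal_sum]
    refine Finset.sum_congr ?_ fun _ _ => rfl
    ext n
    rw [mem_filter, mem_filter, ← ZMod.val_natCast]
    exact ⟨fun h => ⟨h.1, by rw [h.2]⟩, fun h => ⟨h.1, ZMod.val_injective p h.2⟩⟩
  have h2 : ∑ u : (ZMod p)ˣ,
      Run7.h522.UT.Tn (Ico 1 N) (fun n => ((Λ n * g (N - n) : ℝ) : ℂ)) p u =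
      ((coprimeSum g N p : ℝ) : ℂ) := by
    unfold Run7.h522.UT.Tn coprimeSum
    rw [Complex.ofReal_sum]
    simp_rw [Finset.sum_filter]
    rw [Finset.sum_comm]
    refine Finset.sum_congr rfl fun n _ => ?_
    by_cases h : p ∣ n
    · rw [if_neg (not_not.2 h)]
      refine Finset.sum_eq_zero fun u _ => ?_
      rw [if_neg]
      intro h'
      have h3 : ((n : ℕ) : ZMod p) = 0 := (ZMod.natCast_eq_zero_iff _ _).2 h
      rw [h3] at h'
      exact u.ne_zero h'.symm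
    · rw [if_pos h]
      have hc : n.Coprime p := ((Nat.Prime.coprime_iff_not_dvd hp).2 h).symm
      rw [Finset.sum_eq_single (ZMod.unitOfCoprime n hc)]
      · rw [if_pos (ZMod.coe_unitOfCoprime _ _).symm]
      · intro u _ hu
        rw [if_neg]
        intro h'
        exact hu (Units.ext (by rw [← h', ZMod.coe_unitOfCoprime]))
      · exact fun h => absurd (Finset.mem_univ _) h
  have h3 : (Nat.totient p : ℂ) = ((p - 1 : ℝ) : ℂ) := by
    rw [Nat.totient_prime hp, Nat.cast_sub hp.one_le, Nat.cast_one]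
    push_cast
    rfl
  unfold Run7.h522.UT.dd
  rw [h2, h3]
  simp_rw [h1]
  unfold E
  rw [← sum_units_val hp fun a => |classSum g N p a - coprimeSum g N p / (p - 1)|]
  refine Finset.sum_congr rfl fun u _ => ?_
  rw [← Complex.ofReal_div, ← Complex.ofReal_sub, Complex.norm_real, Real.norm_eq_abs]

/-- Let `N ≥ 2` be an integer, let `g` be a real function with `|g(m)| ≤ G` for `1 ≤ m < N`, and let
`δ > 0`.

1. For each `T > 0` the discrepancy over all the classes modulo `q` satisfies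
`E(g, N, q) ≤ G (N / T + 8 √N log N)` for all but at most `34 T² / δ` of the primes `q ≤ N^{1/2 - δ}`.
2. For each integer `Y ≥ 1`, the sum of `E(g, N, q) / q` over the primes `Y ≤ q ≤ N^{1/2 - δ}` is at most
`9 G N / √(δ Y) + 8 G √N (1 + log N)²`.
3. For each `T > 0`, `|∑_{n < N} Λ(n) g(N - n) χ(n)| ≤ G (N / T + 4 √N log N)` for all but at most
`34 T² / δ` of the primitive Dirichlet characters `χ` of conductor at most `N^{1/2 - δ}`. -/
theorem result (N : ℕ) (_ : 2 ≤ N) (g : ℕ → ℝ) (G : ℝ) (_ : 0 < G)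
    (_ : ∀ m, 1 ≤ m → m < N → |g m| ≤ G) (δ : ℝ) (_ : 0 < δ) :
    (∀ T : ℝ, 0 < T → ∀ M : Finset ℕ,
      (∀ q ∈ M, q.Prime ∧ (q : ℝ) ≤ (N : ℝ) ^ (1 / 2 - δ) ∧
        G * (N / T + 8 * (Real.sqrt N * Real.log N)) < E g N q) → (M.card : ℝ) ≤ 34 * T ^ 2 / δ) ∧
    (∀ Y : ℕ, 1 ≤ Y → ∀ M : Finset ℕ,
      (∀ q ∈ M, q.Prime ∧ Y ≤ q ∧ (q : ℝ) ≤ (N : ℝ) ^ (1 / 2 - δ)) →
      ∑ q ∈ M, E g N q / q ≤
        9 * (G * N) / Real.sqrt (δ * Y) + G * (8 * (Real.sqrt N * (1 + Real.log N) ^ 2))) ∧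
    (∀ T : ℝ, 0 < T → ∀ C : Finset (Σ q : ℕ, DirichletCharacter ℂ q),
      (∀ z ∈ C, 1 ≤ z.1 ∧ (z.1 : ℝ) ≤ (N : ℝ) ^ (1 / 2 - δ) ∧ z.2.IsPrimitive ∧
        G * (N / T + 4 * (Real.sqrt N * Real.log N)) <
          ‖∑ n ∈ Ico 1 N, ((Λ n * g (N - n) : ℝ) : ℂ) * z.2 ((n : ℕ) : ZMod z.1)‖) →
      (C.card : ℝ) ≤ 34 * T ^ 2 / δ) := by
  classical
  rename_i hN hG hg hδ
  set Q : ℕ := ⌊(N : ℝ) ^ (1 / 2 - δ)⌋₊ with hQ
  have hQX : (Q : ℝ) ≤ (N : ℝ) ^ (1 / 2 - δ) := Nat.floor_le (by positivity)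
  have hc : ∀ n, 1 ≤ n → n < N → ‖((Λ n * g (N - n) : ℝ) : ℂ)‖ ≤ G * Λ n := by
    intro n h1 h2
    rw [Complex.norm_real, Real.norm_eq_abs, abs_mul, abs_of_nonneg vonMangoldt_nonneg, mul_comm]
    exact mul_le_mul_of_nonneg_right (hg _ (by omega) (by omega)) vonMangoldt_nonneg
  have hsub : ∀ q : ℕ, 1 ≤ q → (q : ℝ) ≤ (N : ℝ) ^ (1 / 2 - δ) → q - 1 < Q := by
    intro q h1 h2
    have h3 : q ≤ Q := Nat.le_floor h2
    omega
  have hinj : ∀ M : Finset ℕ, (∀ q ∈ M, q.Prime) → Set.InjOn (fun q : ℕ => q - 1) M := by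
    intro M hM a ha b hb hab
    have h1 := (hM a ha).one_le
    have h2 := (hM b hb).one_le
    have h3 : a - 1 = b - 1 := hab
    omega
  refine ⟨?_, ?_, ?_⟩
  · intro T hT M hM
    have h := Run7.h522.UT.moduli_nat hN hG hc hδ hQX hT (M.image fun q => q - 1) (by
      intro q hq
      rw [mem_image] at hq
      obtain ⟨p, hp, rfl⟩ := hq
      obtain ⟨h1, h2, h3⟩ := hM p hp
      have h4 : p - 1 + 1 = p := Nat.sub_add_cancel h1.one_le
      have : NeZero (p - 1 + 1) := ⟨by omega⟩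
      have h5 : (p - 1 + 1).Prime := by rw [h4]; exact h1
      refine ⟨hsub p h1.one_le h2, h5, ?_⟩
      rw [← conv_E h5 g N, h4]
      exact h3)
    rwa [card_image_of_injOn (hinj M fun q hq => (hM q hq).1)] at h
  · intro Y hY M hM
    have h := Run7.h522.UT.mean_nat hN hG.le hc hδ hQX hY (M.image fun q => q - 1) (by
      intro q hq
      rw [mem_image] at hq
      obtain ⟨p, hp, rfl⟩ := hq
      obtain ⟨h1, h2, h3⟩ := hM p hp
      have h4 : p - 1 + 1 = p := Nat.sub_add_cancel h1.one_le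
      have h5 : (p - 1 + 1).Prime := by rw [h4]; exact h1
      exact ⟨hsub p h1.one_le h3, h5, by omega⟩)
    rw [sum_image (hinj M fun q hq => (hM q hq).1)] at h
    refine le_trans (le_of_eq ?_) h
    refine sum_congr rfl fun p hp => ?_
    obtain ⟨h1, h2, h3⟩ := hM p hp
    obtain ⟨r, rfl⟩ : ∃ r, p = r + 1 := ⟨p - 1, by have := h1.one_le; omega⟩
    rw [conv_E h1 g N]
    rw [show r + 1 - 1 = r from rfl]
    push_cast
    rw [one_div, div_eq_mul_inv, mul_comm]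
  · intro T hT C hC
    have hex : ∀ z : Σ q : ℕ, DirichletCharacter ℂ q, 1 ≤ z.1 →
        ∃ y : Σ q : ℕ, DirichletCharacter ℂ (q + 1), (⟨y.1 + 1, y.2⟩ : Σ q : ℕ, DirichletCharacter ℂ q) = z := by
      rintro ⟨q, χ⟩ h
      obtain ⟨r, rfl⟩ : ∃ r, q = r + 1 := ⟨q - 1, by change 1 ≤ q at h; omega⟩
      exact ⟨⟨r, χ⟩, rfl⟩
    set Φ : (Σ q : ℕ, DirichletCharacter ℂ (q + 1)) → (Σ q : ℕ, DirichletCharacter ℂ q) :=
      fun y => ⟨y.1 + 1, y.2⟩ with hΦ
    have hΦi : Function.Injective Φ := by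
      rintro ⟨a, χ⟩ ⟨b, ψ⟩ h
      rw [hΦ] at h
      simp only [Sigma.mk.injEq, add_left_inj] at h
      obtain ⟨h1, h2⟩ := h
      subst h1
      rw [heq_eq_eq] at h2
      rw [h2]
    have h := Run7.h522.UT.chars_nat hN hG hc hδ hQX hT (C.preimage Φ hΦi.injOn) (by
      intro y hy
      rw [mem_preimage] at hy
      obtain ⟨h1, h2, h3, h4⟩ := hC _ hy
      have h5 : y.1 + 1 - 1 < Q := hsub (y.1 + 1) (by omega) h2
      exact ⟨by omega, h3, h4⟩)
    have hcard : C.card ≤ (C.preimage Φ hΦi.injOn).card := by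
      refine (card_le_card ?_).trans (card_image_le (s := C.preimage Φ hΦi.injOn) (f := Φ))
      intro z hz
      obtain ⟨y, hy⟩ := hex z (hC z hz).1
      rw [mem_image]
      exact ⟨y, by rw [mem_preimage]; rw [show Φ y = z from hy]; exact hz, hy⟩
    exact le_trans (by exact_mod_cast hcard) h

end Pool.Agent.Results.MP_e9eb55_nt.AllButBoundedModuli
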