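import Pool.Agent.Results.MP_e9eb55_nt.AlmostAllN
import Pool.Agent.Run7.h582.FM.De4

/-!
# The diagonal Moebius-twisted Elliott-Halberstam bound for ALL integers near `lam n * x + c n`, for almost every `x` with
respect to every measure with polynomial Fourier decay

Let `N n ≥ exp (n ^ η)` and let `lam n`, `c n` be real numbers with `N n / log ^ T (N n) ≤ lam n ≤ B N n` and
`|c n| ≤ B N n`. For EVERY finite Borel measure `μ` with bounded support whose Fourier transform is `O (|ξ| ^ (-δ))` for some
`δ > 0` (such measures can live on sets of an arbitrarily small positive Hausdorff dimension) there is a level `θ > 0`, which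
depends only on `μ`, such that for `μ`-almost every `x` the bounds `D_g(M; θ) ≤ M / log ^ A M` and
`|∑_{n < M} Λ(n) g(M - n)| ≤ M / log ^ A M` hold for all large `n` and ALL the natural numbers `M` at a distance of at most
`log ^ V (N n)` from `lam n * x + c n` with `N n ≤ M log ^ V (N n)` (which excludes only the case that `lam n * x + c n` is
negative or very small; if `c n ≥ 0` and `x > 0` it is satisfied for all large `n`), for all `A`, `V` and both weights `g`.

The exceptional sets of the known bounds have only a saving of the powers of the logarithm, and a measure as above can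
be concentrated on such sets; so this does not follow from the bounds for almost all integers.

Method. A measure with polynomial Fourier decay is replaced by finite families of integers `w_j` whose exponential sums decay
polynomially in the distance of the frequency to the integers (`Pool.Agent.Run7.h582.FM`, with the theorem on integer parts
of helper193, `Pool.Agent.N193.PS`). For every residue class modulo `q ≤ N ^ θ` the even moments (of an order depending on the
exponent of the decay) of the exponential sum over the members of the class are as small as for random integers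
(`FM.De2`). By duality and Hoelder's inequality with these moments, the mean square of the exponential sum over the von
Mangoldt function in the class, and the bound of Davenport for the exponential sums over the Moebius function on multiples
of `q`, which is from the starting files (`Pool.Agent.R311.DEH`), the sums `∑ Λ(n) g(w_j - n)`, `n ≡ w_j (q)`, are small on average over the
family (`FM.De3`, `FM.De4`; the summation over `q` follows `Pool.Agent.N193.DE`). Then the lemma of Borel and Cantelli is used.
-/

set_option autoImplicit false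
set_option maxHeartbeats 4000000

namespace Pool.Agent.Results.MP_e9eb55_nt.FourierDecayIntegers

open Finset Filter MeasureTheory
open AlmostAllN (g₁ g₂ disc twistedSum)

/-- `N n ≥ exp (n ^ η)`, `|c n| ≤ B N n` and `N n / log ^ T (N n) ≤ lam n ≤ B N n` for large `n`. -/
def Scales (η : ℝ) (B T : ℕ) (N : ℕ → ℕ) (lam c : ℕ → ℝ) : Prop :=
  ∀ᶠ n : ℕ in atTop, Real.exp ((n : ℝ) ^ η) ≤ N n ∧ |c n| ≤ B * N n ∧ lam n ≤ B * N n ∧
    (N n : ℝ) ≤ lam n * Real.log (N n) ^ T

/-- `μ` is a finite Borel measure with bounded support and its Fourier transform `ξ ↦ ∫ exp (i ξ t) dμ (t)` is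
`O (|ξ| ^ (-δ))` for some `δ > 0`. -/
def FourierDecay (μ : Measure ℝ) : Prop :=
  IsFiniteMeasure μ ∧ (∃ R : ℝ, μ (Set.Icc (-R) R)ᶜ = 0) ∧ ∃ C δ : ℝ, 0 < δ ∧ ∀ ξ : ℝ, ξ ≠ 0 →
    ‖∫ t : ℝ, Complex.exp (((ξ * t : ℝ) : ℂ) * Complex.I) ∂μ‖ ≤ C * |ξ| ^ (-δ)

/-- Let `μ` be a measure with `FourierDecay`. There is `θ > 0` such that for all sequences with `Scales η B T N lam c`,
`η > 0`, the following holds for `μ`-almost every `x`, all natural numbers `V`, `A` and all large `n`: for ALL the natural numbers
`M` at a distance of at most `log ^ V (N n)` from `lam n * x + c n` with `N n ≤ M log ^ V (N n)` and both weights `g = μ`,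
`g = μ log`: `D_g(M; θ) ≤ M / log ^ A M`, and `|∑_{n < M} Λ(n) g(M - n)| ≤ M / log ^ A M`. -/
theorem result (μ : Measure ℝ) (hμ : FourierDecay μ) :
    ∃ θ : ℝ, 0 < θ ∧ ∀ η : ℝ, 0 < η → ∀ (B T : ℕ) (N : ℕ → ℕ) (lam c : ℕ → ℝ), Scales η B T N lam c →
      ∀ᵐ x ∂μ, ∀ V A : ℕ, ∀ᶠ n : ℕ in atTop, ∀ M : ℕ, |(M : ℝ) - (lam n * x + c n)| ≤ Real.log (N n) ^ V →
        (N n : ℝ) ≤ M * Real.log (N n) ^ V → ∀ g : ℕ → ℝ, (g = g₁ ∨ g = g₂) →
          disc g M ((M : ℝ) ^ θ) ≤ M / Real.log M ^ A ∧ |twistedSum g 1 M| ≤ M / Real.log M ^ A := by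
  obtain ⟨θ, hθ, H⟩ := Pool.Agent.Run7.h582.FM.ae_de μ hμ
  refine ⟨θ, hθ, fun η hη B T N lam c hS => ?_⟩
  have hNr : Tendsto (fun n : ℕ => (N n : ℝ)) atTop atTop := by
    have h1 : Tendsto (fun n : ℕ => Real.exp ((n : ℝ) ^ η)) atTop atTop :=
      Real.tendsto_exp_atTop.comp ((tendsto_rpow_atTop hη).comp tendsto_natCast_atTop_atTop)
    exact tendsto_atTop_mono' _ (hS.mono fun n hn => hn.1) h1
  have hlogr : Tendsto (fun n : ℕ => Real.log (N n)) atTop atTop := Real.tendsto_log_atTop.comp hNr
  filter_upwards [H η hη B T N lam c hS] with x hx V A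
  filter_upwards [hx V A, hS, hNr.eventually_ge_atTop 1, hlogr.eventually_ge_atTop ((B : ℝ) * |x| + B + 1),
    hNr.eventually (Pool.Agent.Run7.h582.FM.log_le_rpow_ev V 1 one_pos)] with n hn hsc hN1 hlg hlV M hM hlow g hg
  obtain ⟨_, hc, hlam, hlam2⟩ := hsc
  have hN0 : (0 : ℝ) < N n := by linarith
  have hB0 : (0 : ℝ) ≤ B := Nat.cast_nonneg _
  have hlog0 : 0 ≤ Real.log (N n) := Real.log_nonneg hN1
  have hlam0 : 0 < lam n := by
    by_contra hcon
    push Not at hcon
    have : lam n * Real.log (N n) ^ T ≤ 0 := mul_nonpos_of_nonpos_of_nonneg hcon (by positivity)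
    linarith
  have hup : (M : ℝ) ≤ N n * Real.log (N n) := by
    rw [Real.rpow_one] at hlV
    have h1 : lam n * x ≤ B * N n * |x| := by
      calc lam n * x ≤ lam n * |x| := mul_le_mul_of_nonneg_left (le_abs_self x) hlam0.le
        _ ≤ _ := mul_le_mul_of_nonneg_right hlam (abs_nonneg x)
    have h2 : c n ≤ B * N n := (le_abs_self _).trans hc
    have h3 := (abs_le.1 hM).2
    calc (M : ℝ) ≤ lam n * x + c n + Real.log (N n) ^ V := by linarith
      _ ≤ B * N n * |x| + B * N n + N n := by linarith
      _ = N n * (B * |x| + B + 1) := by ring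
      _ ≤ _ := mul_le_mul_of_nonneg_left hlg hN0.le
  have h := hn (M : ℤ) (by rw [Int.cast_natCast]; exact hM) g hg (by rw [Int.cast_natCast]; exact hlow)
    (by rw [Int.cast_natCast]; exact hup)
  rw [Int.toNat_natCast] at h
  exact h

end Pool.Agent.Results.MP_e9eb55_nt.FourierDecayIntegers
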