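import Pool.Agent.Run7.h95.LF.RealLog
import Pool.Agent.Results.MP_e9eb55_nt.AlmostAllN

/-!
# The diagonal Moebius-twisted Elliott-Halberstam bound around the values of generic linear forms

Let `v_i`, `i` in a countable set, be vectors in `ℝ^k` such that the sum of the `1 / (1 + log (1 + |v_i|)) ^ A` converges for
some `A`; for instance all `(b_1^(n_1), …, b_k^(n_k))` with `b_j > 1`, or all `(exp (n_1 ^ a), …, exp (n_k ^ a))`, `a > 0`. For
almost all `α` in `ℝ^k`, all `w` and `B`, the diagonal Moebius-twisted Elliott-Halberstam bound holds at all levels `N ^ θ`,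
`θ < 1`, and even at the levels `N exp (-(log N) ^ c)`, `c > 0`, for ALL `N` with
`|N - (α_1 v_(i,1) + … + α_k v_(i,k))| ≤ w (1 + log (1 + |v_i|)) ^ B`, for all but finitely many `i`. (The starting files treat
integers near powers, near the values of additive functions, and thin sets with one parameter.)

Proof. The starting theorem `AlmostAllN` of this problem shows that the exceptional set has a saving of every power of the
logarithm; the `α` with an exceptional `N` in the window of `v_i` form slabs whose measures have a finite sum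
(Borel-Cantelli, `Pool/Agent/N251/LF/Ae`).
-/

set_option autoImplicit false

open Finset MeasureTheory

namespace Pool.Agent.Results.MP_e9eb55_nt.GenericLinearForms

open Pool.Agent.N251.LF (Slow Fast slow_examples)
open Pool.Agent.N375.AV (LogThin logThin_of)
open Pool.Agent.N897.AVR (logThin_union logThin_lt)
open Run7.h95.LF (logThin_lin)
open Pool.Agent.Results.MP_e9eb55_nt.AlmostAllN (disc g₁ g₂)

/-- **Theorem.** Let `v_i` be vectors in `ℝ^k` such that the sum of the `1 / (1 + log (1 + ‖v_i‖)) ^ A` converges for some `A`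
(`Slow v`). For almost all `α` in `ℝ^k`, all `w` and `B`: (1) for all `0 < θ < 1` and `A > 0`, for all but finitely many `i` ALL
`N` with `|N - ∑ α_l v_(i,l)| ≤ w (1 + log (1 + ‖v_i‖)) ^ B` satisfy `D_g(N; θ) ≤ N (log N)^(-A)` for both weights `g`; (2) for
all `c, A > 0` the same holds with the level `N exp (-(log N) ^ c)` in place of `N ^ θ`. Examples of families: the vectors
`(u_1 (n_1), …, u_k (n_k))` with `log |u_j n|` growing at least like a power of `n`, for instance `u_j n = b ^ n`, `b > 1`, or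
`exp (n ^ a)`, `a > 0`. -/
theorem result :
    (∀ (k : ℕ) (ι : Type) (v : ι → Fin k → ℝ), Slow v → ∀ᵐ α : Fin k → ℝ, ∀ (w : ℝ) (B : ℕ),
      (∀ θ : ℝ, 0 < θ → θ < 1 → ∀ A : ℝ, 0 < A →
        {i | ¬ ∀ N : ℕ, |(N : ℝ) - ∑ l, α l * v i l| ≤ w * (1 + Real.log (1 + ‖v i‖)) ^ B →
          ∀ g : ℕ → ℝ, (g = g₁ ∨ g = g₂) → disc g N ((N : ℝ) ^ θ) ≤ N * Real.log N ^ (-A)}.Finite) ∧
      (∀ c : ℝ, 0 < c → ∀ A : ℝ, 0 < A →
        {i | ¬ ∀ N : ℕ, |(N : ℝ) - ∑ l, α l * v i l| ≤ w * (1 + Real.log (1 + ‖v i‖)) ^ B →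
          ∀ g : ℕ → ℝ, (g = g₁ ∨ g = g₂) →
            disc g N (N * Real.exp (-(Real.log N) ^ c)) ≤ N * Real.log N ^ (-A)}.Finite)) ∧
    (∀ (k : ℕ) (u : Fin k → ℕ → ℝ), (∀ j, Fast (u j)) → Slow (fun (n : Fin k → ℕ) (j : Fin k) => u j (n j))) ∧
    (∀ b : ℝ, 1 < b → Fast (fun n => b ^ n)) ∧
    ∀ a : ℝ, 0 < a → Fast (fun n => Real.exp ((n : ℝ) ^ a)) := by
  refine ⟨fun k ι v hv => ?_, slow_examples⟩
  obtain ⟨E, h1, h2, h3⟩ := Pool.Agent.Results.MP_e9eb55_nt.AlmostAllN.result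
  have hE : LogThin E := logThin_of (fun B => by
      obtain ⟨X₀, hX₀⟩ := h1 B
      refine ⟨X₀, fun X hX => le_trans (le_of_eq ?_) (hX₀ X hX)⟩
      congr!)
  have hall : ∀ n₀ : ℕ, ∀ᵐ α : Fin k → ℝ, ∀ (w : ℝ) (B : ℕ), {i | ∃ n ∈ E ∪ {n : ℕ | n < n₀},
      |(n : ℝ) - ∑ l, α l * v i l| ≤ w * (1 + Real.log (1 + ‖v i‖)) ^ B}.Finite :=
    fun n₀ => logThin_lin (logThin_union hE (logThin_lt n₀)) v hv
  filter_upwards [ae_all_iff.2 hall] with α hα w B
  refine ⟨fun θ hθ hθ1 A hA => ?_, fun c hc A hA => ?_⟩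
  · obtain ⟨n₀, hn₀⟩ := h2 θ hθ hθ1 A hA
    refine (hα n₀ w B).subset ?_
    intro i hi
    simp only [Set.mem_ofPred_eq] at hi ⊢
    by_contra hcon
    push Not at hcon
    apply hi
    intro N hN
    have hnot : N ∉ E ∪ {n : ℕ | n < n₀} := fun hmem => absurd hN (not_le.2 (hcon N hmem))
    rw [Set.mem_union, not_or] at hnot
    exact hn₀ N (not_lt.1 hnot.2) hnot.1
  · obtain ⟨n₀, hn₀⟩ := h3 c hc A hA
    refine (hα n₀ w B).subset ?_
    intro i hi
    simp only [Set.mem_ofPred_eq] at hi ⊢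
    by_contra hcon
    push Not at hcon
    apply hi
    intro N hN
    have hnot : N ∉ E ∪ {n : ℕ | n < n₀} := fun hmem => absurd hN (not_le.2 (hcon N hmem))
    rw [Set.mem_union, not_or] at hnot
    exact hn₀ N (not_lt.1 hnot.2) hnot.1

end Pool.Agent.Results.MP_e9eb55_nt.GenericLinearForms
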