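import Pool.Agent.Results.MP_e9eb55_nt.AlmostAllN
import Pool.Agent.Run7.h844.RP.PwDe

/-!
# The diagonal Moebius-twisted Elliott-Halberstam bound for all integers near the values of generalised polynomials at primes

Method: exponential sums over primes with the phase of a generalised polynomial: derivative bounds uniform in the
coefficients, van der Corput differencing of all orders, bilinear sums, Vaughan's identity (after `Pool.Agent.H895R3.NK`,
`Pool.Agent.H373R2.T7`), with a power saving at all frequencies up to a power, and a discrete Fejér kernel for the passage to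
the integer parts (library `Pool.Agent.Run7.h844.RP`). Hence the exponential sums over the integer parts decay polynomially in
the distance of the frequency to the integers. For families with this property the bounds are in
`Pool.Agent.Run7.h582.FM.De4` (moments in residue classes, duality, the bound of Davenport on multiples of `q` from the
starting files `Pool.Agent.R311.DEH`).
-/

set_option autoImplicit false

namespace Pool.Agent.Results.MP_e9eb55_nt.ValuesAtPrimes

open Finset
open AlmostAllN (g₁ g₂ disc twistedSum)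

/-- The generalised polynomial `∑ a x * t ^ x`, `x ∈ F`, with real exponents and coefficients. -/
noncomputable def genPoly (F : Finset ℝ) (a : ℝ → ℝ) (t : ℝ) : ℝ := ∑ x ∈ F, a x * t ^ x

/-- `c` is the largest exponent; it is positive and not an integer, and its coefficient is not zero. -/
def Leading (F : Finset ℝ) (a : ℝ → ℝ) (c : ℝ) : Prop :=
  c ∈ F ∧ (∀ x ∈ F, x ≤ c) ∧ 0 < c ∧ (∀ m : ℕ, c ≠ m) ∧ a c ≠ 0

/-- For all the natural numbers `M` with `|M - y| ≤ R` and `S ≤ M` and both weights `g = μ`, `g = μ log`: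
`D_g(M; θ) ≤ M / log ^ A M`, and `|∑_{n < M} Λ(n) g(M - n)| ≤ M / log ^ A M`. -/
def Near (θ : ℝ) (A : ℕ) (R S y : ℝ) : Prop :=
  ∀ M : ℕ, |(M : ℝ) - y| ≤ R → S ≤ M → ∀ g : ℕ → ℝ, (g = g₁ ∨ g = g₂) →
    disc g M ((M : ℝ) ^ θ) ≤ M / Real.log M ^ A ∧ |twistedSum g 1 M| ≤ M / Real.log M ^ A

open Classical in
/-- Let `f` be a generalised polynomial whose largest exponent `c` is positive and not an integer. There is a level `θ > 0` (it
depends only on `f`) such that for all `V`, `W`, `A`, `U`, all large `X` and every real number `z` with `|z| ≤ X ^ c`, all the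
primes `X < p ≤ 2 X`, with at most `X / log ^ U X` exceptions, have the following property: for ALL the natural numbers `M` at a
distance of at most `log ^ W X` from `f(p) + z` with `M ≥ X ^ c / log ^ V X` and both weights `g = μ`, `g = μ log`,
`D_g(M; θ) ≤ M / log ^ A M` and `|∑_{n < M} Λ(n) g(M - n)| ≤ M / log ^ A M`. -/
theorem result (F : Finset ℝ) (a : ℝ → ℝ) (c : ℝ) (hF : Leading F a c) :
    ∃ θ : ℝ, 0 < θ ∧ ∀ V W A U : ℕ, ∃ X₀ : ℕ, ∀ X : ℕ, X₀ ≤ X → ∀ z : ℝ, |z| ≤ (X : ℝ) ^ c →
      (((Ioc X (2 * X)).filter fun p : ℕ =>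
        p.Prime ∧ ¬ Near θ A (Real.log X ^ W) ((X : ℝ) ^ c / Real.log X ^ V) (genPoly F a p + z)).card : ℝ) ≤
        X / Real.log X ^ U := by
  obtain ⟨hcF, hmax, hc, hn, ha⟩ := hF
  obtain ⟨θ, hθ, h1⟩ := Pool.Agent.Run7.h844.RP.primes_de F c hcF hn hc hmax a ha
  refine ⟨θ, hθ, fun V W A U => ?_⟩
  obtain ⟨X₀, h2⟩ := h1 V A W U
  refine ⟨X₀ + 2, fun X hX z hz => ?_⟩
  refine le_trans ?_ (h2 X (by omega) z hz)
  apply Nat.cast_le.2
  apply card_le_card
  intro p hp
  rw [mem_filter] at hp
  rw [mem_filter, mem_filter]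
  refine ⟨⟨hp.1, hp.2.1⟩, fun hall => hp.2.2 ?_⟩
  intro M hM hS g hg
  have hl : 0 < Real.log (X : ℝ) := Real.log_pos (by exact_mod_cast (by omega : 1 < X))
  have h3 := hall M hM (by
    rwa [div_le_iff₀ (by positivity)] at hS) g hg
  exact h3

end Pool.Agent.Results.MP_e9eb55_nt.ValuesAtPrimes
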